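import Pool.Agent.X79.EQP.Stm

/-! Part PR_CONV of the project PR (helper79). -/

set_option autoImplicit false

namespace Pool.Agent.X192.EQP

open Filter MeasureTheory Set Topology Pool.Agent.X79.EQ Pool.Agent.X79.EQP

/-- the operator -/
noncomputable def II (U : ℝ → ℝ) (u : ℝ) : ℝ := ∫ v in Ioi (0 : ℝ), Real.exp v * U (u - v)

/-- monotone functions vanishing below `u₀` -/
def Nice (U : ℝ → ℝ) (u₀ : ℝ) : Prop := Monotone U ∧ ∀ u, u < u₀ → U u = 0

theorem Nice.nonneg {U : ℝ → ℝ} {u₀ : ℝ} (h : Nice U u₀) (y : ℝ) : 0 ≤ U y := by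
  have h1 : U (min y (u₀ - 1)) = 0 := h.2 _ (lt_of_le_of_lt (min_le_right _ _) (by linarith))
  rw [← h1]
  exact h.1 (min_le_left _ _)

theorem Nice.integrable {U : ℝ → ℝ} {u₀ : ℝ} (h : Nice U u₀) (u : ℝ) :
    IntegrableOn (fun v => Real.exp v * U (u - v)) (Ioi (0 : ℝ)) := by
  have h1 : IntegrableOn (fun v => U (u - v)) (Icc 0 (max 0 (u - u₀))) := by
    apply AntitoneOn.integrableOn_isCompact isCompact_Icc
    intro a _ b _ hab
    exact h.1 (by linarith)
  have h2 : IntegrableOn (fun v => Real.exp v * U (u - v)) (Icc 0 (max 0 (u - u₀))) :=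
    IntegrableOn.continuousOn_mul Real.continuous_exp.continuousOn h1 isCompact_Icc
  refine h2.of_forall_diff_eq_zero measurableSet_Ioi ?_
  rintro v ⟨hv, hv'⟩
  have hv0 : 0 < v := hv
  have h3 : max 0 (u - u₀) < v := by
    by_contra hc
    exact hv' ⟨hv0.le, not_lt.1 hc⟩
  have h4 : u - v < u₀ := by linarith [le_max_right 0 (u - u₀)]
  rw [h.2 _ h4, mul_zero]

theorem Nice.II {U : ℝ → ℝ} {u₀ : ℝ} (h : Nice U u₀) : Nice (II U) u₀ := by
  constructor
  · intro u u' huu
    unfold EQP.II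
    refine integral_mono (h.integrable u) (h.integrable u') fun v => ?_
    exact mul_le_mul_of_nonneg_left (h.1 (by linarith)) (Real.exp_pos v).le
  · intro u hu
    unfold EQP.II
    rw [setIntegral_congr_fun measurableSet_Ioi (g := fun _ => (0 : ℝ)) fun v hv => ?_]
    · simp
    · have hv0 : 0 < v := hv
      simp only
      rw [h.2 _ (by linarith), mul_zero]

/-- the comparison functions -/
noncomputable def th : ℕ → ℝ → ℝ
  | 0 => fun v => if 0 ≤ v then 1 else 0
  | j + 1 => II (th j)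

theorem th_nice : ∀ j, Nice (th j) 0 := by
  intro j
  induction j with
  | zero =>
    constructor
    · intro a b hab
      show (if 0 ≤ a then (1 : ℝ) else 0) ≤ if 0 ≤ b then 1 else 0
      split_ifs with h1 h2
      · exact le_rfl
      · exact absurd (h1.trans hab) h2
      · exact zero_le_one
      · exact le_rfl
    · intro u hu
      show (if 0 ≤ u then (1 : ℝ) else 0) = 0
      rw [if_neg (not_le.2 hu)]
  | succ j ih => exact ih.II

theorem th_one {u : ℝ} (hu : 0 ≤ u) : th 1 u = Real.exp u - 1 := by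
  show ∫ v in Ioi (0 : ℝ), Real.exp v * (if 0 ≤ u - v then (1 : ℝ) else 0) = _
  have h1 : (fun v : ℝ => Real.exp v * (if 0 ≤ u - v then (1 : ℝ) else 0))
      = (Iic u).indicator (fun v => Real.exp v) := by
    ext v
    by_cases hv : v ≤ u
    · rw [indicator_of_mem (show v ∈ Iic u from hv), if_pos (by linarith), mul_one]
    · rw [indicator_of_notMem (show v ∉ Iic u from hv), if_neg (by intro h; exact hv (by linarith)),
        mul_zero]
  rw [h1, setIntegral_indicator measurableSet_Iic, Ioi_inter_Iic,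
    ← intervalIntegral.integral_of_le hu, integral_exp, Real.exp_zero]

theorem th_lim (hL : S_L1) : ∀ j, Tendsto (fun u => th (j + 1) u / nu j u) atTop
    (𝓝 (1 / (j.factorial : ℝ))) := by
  intro j
  induction j with
  | zero =>
    have h1 : Tendsto (fun u : ℝ => 1 - Real.exp (-u)) atTop (𝓝 (1 - 0)) :=
      tendsto_const_nhds.sub Real.tendsto_exp_neg_atTop_nhds_zero
    rw [sub_zero] at h1
    simp only [Nat.factorial_zero, Nat.cast_one, div_one]
    refine h1.congr' ?_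
    filter_upwards [eventually_ge_atTop 0] with u hu
    rw [th_one hu]
    unfold nu
    rw [pow_zero, mul_one, sub_div, div_self (Real.exp_pos u).ne', Real.exp_neg, one_div]
  | succ j ih =>
    have h := hL (th (j + 1)) j _ 0 (th_nice _).1 (th_nice _).2 ih
    have e : (1 / (j.factorial : ℝ)) / (j + 1) = 1 / ((j + 1).factorial : ℝ) := by
      rw [Nat.factorial_succ]
      push_cast
      field_simp
    rw [e] at h
    exact h

section

variable {X : Type} {h w : X → ℝ} (hfin : Fin' h)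

/-- the sums -/
noncomputable def Aj (h w : X → ℝ) (U : ℝ → ℝ) (u : ℝ) : ℝ := ∑ᶠ x, w x * U (u - h x)

include hfin in
theorem Aj_eq {U : ℝ → ℝ} {u₀ : ℝ} (hU : ∀ u, u < u₀ → U u = 0) {u T : ℝ} (hT : u - u₀ ≤ T) :
    Aj h w U u = ∑ x ∈ (hfin T).toFinset, w x * U (u - h x) := by
  unfold Aj
  apply finsum_eq_sum_of_support_subset
  intro x hx
  rw [Function.mem_support] at hx
  simp only [Finite.coe_toFinset, mem_setOf_eq]
  by_contra hc
  push Not at hc
  apply hx
  rw [hU _ (by linarith), mul_zero]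

include hfin in
theorem Aj_nice {U : ℝ → ℝ} {u₀ h₀ : ℝ} (hU : Nice U u₀) (hw : ∀ x, 0 ≤ w x)
    (hh : ∀ x, h₀ ≤ h x) : Nice (Aj h w U) (u₀ + h₀) := by
  constructor
  · intro u u' huu
    rw [Aj_eq hfin hU.2 (T := u' - u₀) (by linarith), Aj_eq hfin hU.2 (T := u' - u₀) le_rfl]
    exact Finset.sum_le_sum fun x _ => mul_le_mul_of_nonneg_left (hU.1 (by linarith)) (hw x)
  · intro u hu
    rw [Aj_eq hfin hU.2 le_rfl]
    apply Finset.sum_eq_zero
    intro x _
    rw [hU.2 _ (by linarith [hh x]), mul_zero]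

include hfin in
theorem Aj_II {U : ℝ → ℝ} {u₀ : ℝ} (hU : Nice U u₀) : Aj h w (II U) = II (Aj h w U) := by
  ext u
  rw [Aj_eq hfin hU.II.2 le_rfl]
  unfold EQP.II
  have h1 : ∀ v ∈ Ioi (0 : ℝ), Real.exp v * Aj h w U (u - v)
      = ∑ x ∈ (hfin (u - u₀)).toFinset, w x * (Real.exp v * U (u - h x - v)) := by
    intro v hv
    have hv0 : 0 < v := hv
    rw [Aj_eq hfin hU.2 (T := u - u₀) (by linarith), Finset.mul_sum]
    apply Finset.sum_congr rfl
    intro x _
    have e : u - v - h x = u - h x - v := by ring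
    rw [e]
    ring
  rw [setIntegral_congr_fun measurableSet_Ioi h1, integral_finset_sum]
  · apply Finset.sum_congr rfl
    intro x _
    rw [integral_const_mul]
  · intro x _
    exact (hU.integrable (u - h x)).const_mul _

end

theorem Aj_zero {X : Type} {h w : X → ℝ} (u : ℝ) :
    Aj h w (th 0) u = cnt h w (fun _ => 0) u := by
  classical
  unfold Aj cnt
  apply finsum_congr
  intro x
  show w x * (if 0 ≤ u - h x then (1 : ℝ) else 0) = _
  by_cases hx : h x ≤ u + 0
  · rw [if_pos hx, if_pos (by linarith), mul_one]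
  · rw [if_neg hx, if_neg (by intro h'; exact hx (by linarith)), mul_zero]

theorem Aj_lim (hL : S_L1) {X : Type} {h w : X → ℝ} (hfin : Fin' h) (hw : ∀ x, 0 ≤ w x) {b : ℕ}
    {a : ℝ} (hlim : Tendsto (fun u => cnt h w (fun _ => 0) u / nu b u) atTop (𝓝 a)) :
    ∀ j, Tendsto (fun u => Aj h w (th j) u / nu (b + j) u) atTop
      (𝓝 (a * b.factorial / (b + j).factorial)) := by
  obtain ⟨h₀, hh⟩ := exists_min hfin
  intro j
  induction j with
  | zero =>
    have e : a * b.factorial / (b + 0).factorial = a := by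
      rw [add_zero]
      have : (b.factorial : ℝ) ≠ 0 := by positivity
      field_simp
    rw [e]
    simp only [Aj_zero, add_zero]
    exact hlim
  | succ j ih =>
    have hn := Aj_nice hfin (w := w) (th_nice j) hw hh
    have h1 := hL _ (b + j) _ _ hn.1 hn.2 ih
    have e : a * b.factorial / (b + j).factorial / ((b + j : ℕ) + 1)
        = a * b.factorial / (b + (j + 1)).factorial := by
      rw [← add_assoc, Nat.factorial_succ]
      push_cast
      field_simp
    rw [e] at h1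
    have h2 : Aj h w (th (j + 1)) = II (Aj h w (th j)) := Aj_II hfin (th_nice j)
    rw [h2]
    exact h1

theorem cnt_nice {X : Type} {h w : X → ℝ} (hfin : Fin' h) (hw : ∀ x, 0 ≤ w x) {h₀ : ℝ}
    (hh : ∀ x, h₀ ≤ h x) : Nice (cnt h w (fun _ => 0)) h₀ := by
  have h1 := Aj_nice hfin (w := w) (th_nice 0) hw hh
  have e : Aj h w (th 0) = cnt h w (fun _ => 0) := funext fun u => Aj_zero u
  rw [e, zero_add] at h1
  exact h1

theorem cnt_prod {X₁ X₂ : Type} {h₁ w₁ : X₁ → ℝ} {h₂ w₂ : X₂ → ℝ} (hf₁ : Fin' h₁)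
    (hf₂ : Fin' h₂) {k₀ : ℝ} (hk : ∀ x, k₀ ≤ h₂ x) (hw₂ : ∀ x, 0 ≤ w₂ x) (u : ℝ) :
    cnt (fun x : X₁ × X₂ => h₁ x.1 + h₂ x.2) (fun x => w₁ x.1 * w₂ x.2) (fun _ => 0) u
      = Aj h₁ w₁ (cnt h₂ w₂ (fun _ => 0)) u := by
  classical
  obtain ⟨h₀, hh⟩ := exists_min hf₁
  rw [Aj_eq hf₁ (cnt_nice hf₂ hw₂ hk).2 (T := u - k₀) le_rfl]
  unfold cnt
  rw [finsum_eq_sum_of_support_subset (s := (hf₁ (u - k₀)).toFinset ×ˢ (hf₂ (u - h₀)).toFinset)]
  · rw [Finset.sum_product]
    apply Finset.sum_congr rfl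
    intro x _
    rw [finsum_eq_sum_of_support_subset (s := (hf₂ (u - h₀)).toFinset)]
    · rw [Finset.mul_sum]
      apply Finset.sum_congr rfl
      intro y _
      by_cases hy : h₁ x + h₂ y ≤ u + 0
      · rw [if_pos hy, if_pos (by linarith)]
      · rw [if_neg hy, if_neg (by intro h'; exact hy (by linarith)), mul_zero]
    · intro y hy
      rw [Function.mem_support] at hy
      simp only [Finite.coe_toFinset, mem_setOf_eq]
      have h1 : h₂ y ≤ u - h₁ x + 0 := by
        by_contra hc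
        rw [if_neg hc] at hy
        exact hy rfl
      linarith [hh x]
  · rintro ⟨x, y⟩ hxy
    rw [Function.mem_support] at hxy
    have h1 : h₁ x + h₂ y ≤ u + 0 := by
      by_contra hc
      simp only at hxy
      rw [if_neg hc] at hxy
      exact hxy rfl
    simp only [Finset.coe_product, Finite.coe_toFinset, mem_prod, mem_setOf_eq]
    exact ⟨by linarith [hk y], by linarith [hh x]⟩

theorem t_CONV (hL : S_L1) : S_CONV := by
  intro X₁ X₂ h₁ w₁ h₂ w₂ b₁ b₂ a₁ a₂ hf₁ hf₂ hw₁ hw₂ hlim₁ hlim₂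
  obtain ⟨h₀, hh⟩ := exists_min hf₁
  obtain ⟨k₀, hk⟩ := exists_min hf₂
  set B : ℝ → ℝ := cnt h₂ w₂ (fun _ => 0) with hB
  have hBn : Nice B k₀ := cnt_nice hf₂ hw₂ hk
  set c : ℝ := a₂ * b₂.factorial with hc
  have hfac : (0 : ℝ) < b₂.factorial := by positivity
  have ha₂ : 0 ≤ a₂ := ge_of_tendsto hlim₂ (by
    filter_upwards [eventually_gt_atTop 0] with u hu
    exact div_nonneg (hBn.nonneg u) (nu_pos hu).le)
  have ha₁ : 0 ≤ a₁ := ge_of_tendsto hlim₁ (by
    filter_upwards [eventually_gt_atTop 0] with u hu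
    exact div_nonneg ((cnt_nice hf₁ hw₁ hh).nonneg u) (nu_pos hu).le)
  have hc0 : 0 ≤ c := mul_nonneg ha₂ hfac.le
  set m : ℝ := min k₀ 0 with hm
  have hth := th_nice (b₂ + 1)
  -- comparison
  have hcomp : ∀ ε : ℝ, 0 < ε → ∃ C : ℝ, 0 ≤ C ∧ ∀ v, |B v - c * th (b₂ + 1) v| ≤
      ε * th (b₂ + 1) v + C * th 0 (v - m) := by
    intro ε hε
    have h1 : Tendsto (fun u => B u / nu b₂ u - (c + ε) * (th (b₂ + 1) u / nu b₂ u)) atTop
        (𝓝 (a₂ - (c + ε) * (1 / b₂.factorial))) := hlim₂.sub ((th_lim hL b₂).const_mul _)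
    have h2 : Tendsto (fun u => B u / nu b₂ u - (c - ε) * (th (b₂ + 1) u / nu b₂ u)) atTop
        (𝓝 (a₂ - (c - ε) * (1 / b₂.factorial))) := hlim₂.sub ((th_lim hL b₂).const_mul _)
    have e1 : a₂ - (c + ε) * (1 / b₂.factorial) = -(ε / b₂.factorial) := by
      rw [hc]; field_simp; ring
    have e2 : a₂ - (c - ε) * (1 / b₂.factorial) = ε / b₂.factorial := by
      rw [hc]; field_simp; ring
    have hpos : 0 < ε / b₂.factorial := div_pos hε hfac
    rw [e1] at h1
    rw [e2] at h2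
    have h3 := (h1.eventually (gt_mem_nhds (neg_lt_zero.2 hpos))).and
      ((h2.eventually (lt_mem_nhds hpos)).and (eventually_gt_atTop 0))
    obtain ⟨V, hV⟩ := eventually_atTop.1 h3
    have hC : 0 ≤ B V + c * th (b₂ + 1) V :=
      add_nonneg (hBn.nonneg V) (mul_nonneg hc0 (hth.nonneg V))
    refine ⟨B V + c * th (b₂ + 1) V, hC, fun v => ?_⟩
    have ht0 : 0 ≤ th 0 (v - m) := (th_nice 0).nonneg _
    rcases le_or_gt V v with hv | hv
    · obtain ⟨k1, k2, k3⟩ := hV v hv
      have hn := nu_pos (b := b₂) k3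
      have q1 : B v ≤ (c + ε) * th (b₂ + 1) v := by
        have : (B v - (c + ε) * th (b₂ + 1) v) / nu b₂ v < 0 := by
          rw [sub_div, mul_div_assoc]; exact k1
        have h9 := (div_lt_iff₀ hn).1 this
        rw [zero_mul] at h9
        linarith
      have q2 : (c - ε) * th (b₂ + 1) v ≤ B v := by
        have : 0 < (B v - (c - ε) * th (b₂ + 1) v) / nu b₂ v := by
          rw [sub_div, mul_div_assoc]; exact k2
        have h9 := (lt_div_iff₀ hn).1 this
        rw [zero_mul] at h9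
        linarith
      have q3 := mul_nonneg hC ht0
      rw [abs_le]
      constructor <;> nlinarith
    · have q1 : B v ≤ B V := hBn.1 hv.le
      have q2 : th (b₂ + 1) v ≤ th (b₂ + 1) V := hth.1 hv.le
      have q3 := hBn.nonneg v
      have q4 := hth.nonneg v
      have q5 : c * th (b₂ + 1) v ≤ c * th (b₂ + 1) V := mul_le_mul_of_nonneg_left q2 hc0
      have q6 : 0 ≤ c * th (b₂ + 1) v := mul_nonneg hc0 q4
      have q7 : 0 ≤ ε * th (b₂ + 1) v := mul_nonneg hε.le q4
      rcases le_or_gt m v with hvm | hvm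
      · have e : th 0 (v - m) = 1 := by
          show (if 0 ≤ v - m then (1 : ℝ) else 0) = 1
          rw [if_pos (by linarith)]
        rw [e, mul_one, abs_le]
        constructor <;> linarith
      · have z1 : B v = 0 := hBn.2 v (lt_of_lt_of_le hvm (min_le_left _ _))
        have z2 : th (b₂ + 1) v = 0 := hth.2 v (lt_of_lt_of_le hvm (min_le_right _ _))
        rw [z1, z2]
        simp only [mul_zero, sub_zero, abs_zero, zero_add]
        exact mul_nonneg hC ht0
  -- limits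
  have hA := Aj_lim hL hf₁ hw₁ hlim₁ (b₂ + 1)
  rw [show b₁ + (b₂ + 1) = b₁ + b₂ + 1 by ring] at hA
  set L : ℝ := a₁ * b₁.factorial / (b₁ + b₂ + 1).factorial with hLdef
  have hL0 : 0 ≤ L := by positivity
  have hsmall : Tendsto (fun u => cnt h₁ w₁ (fun _ => 0) (u - m) / nu (b₁ + b₂ + 1) u) atTop
      (𝓝 0) := by
    have t1 : Tendsto (fun u : ℝ => u - m) atTop atTop :=
      tendsto_atTop_add_const_right _ (-m) tendsto_id
    have t2 := hlim₁.comp t1
    have t3 := nu_ratio b₁ m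
    have t4 : Tendsto (fun u : ℝ => (u ^ (b₂ + 1))⁻¹) atTop (𝓝 0) :=
      (tendsto_pow_atTop (Nat.succ_ne_zero b₂)).inv_tendsto_atTop
    have t5 := (t2.mul t3).mul t4
    rw [mul_zero] at t5
    refine t5.congr' ?_
    filter_upwards [eventually_gt_atTop 0, eventually_gt_atTop m] with u hu hum
    have n1 := (nu_pos (b := b₁) hu).ne'
    have n2 := (nu_pos (b := b₁) (sub_pos.2 hum)).ne'
    have e : nu (b₁ + b₂ + 1) u = nu b₁ u * u ^ (b₂ + 1) := by
      unfold nu; ring
    have n3 : u ^ (b₂ + 1) ≠ 0 := by positivity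
    rw [e]
    simp only [Function.comp_apply]
    field_simp
  -- conclusion
  have hgoal : a₁ * a₂ * ((b₁.factorial : ℝ) * b₂.factorial / (b₁ + b₂ + 1).factorial) = c * L := by
    rw [hc, hLdef]; ring
  rw [hgoal, Metric.tendsto_atTop]
  intro δ hδ
  set ε : ℝ := δ / (3 * (L + 1)) with hε
  have hε0 : 0 < ε := by positivity
  obtain ⟨C, hC0, hC⟩ := hcomp ε hε0
  have u1 := (hA.const_mul c)
  have u2 := Metric.tendsto_atTop.1 u1 (δ / 3) (by positivity)
  have u3 := Metric.tendsto_atTop.1 hA 1 one_pos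
  have u4 := Metric.tendsto_atTop.1 (hsmall.const_mul C) (δ / 3) (by positivity)
  obtain ⟨N2, hN2⟩ := u2
  obtain ⟨N3, hN3⟩ := u3
  obtain ⟨N4, hN4⟩ := u4
  refine ⟨max (max N2 N3) (max N4 1), fun u hu => ?_⟩
  have g2 := hN2 u ((le_max_left _ _).trans ((le_max_left _ _).trans hu))
  have g3 := hN3 u ((le_max_right _ _).trans ((le_max_left _ _).trans hu))
  have g4 := hN4 u ((le_max_left _ _).trans ((le_max_right _ _).trans hu))
  have g5 : 1 ≤ u := (le_max_right _ _).trans ((le_max_right _ _).trans hu)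
  have hn := nu_pos (b := b₁ + b₂ + 1) (by linarith : 0 < u)
  rw [mul_zero, dist_zero_right] at g4
  rw [Real.dist_eq] at g2 g3 ⊢
  rw [cnt_prod hf₁ hf₂ hk hw₂]
  set P := Aj h₁ w₁ B u with hP
  set Q := Aj h₁ w₁ (th (b₂ + 1)) u with hQ
  set R := cnt h₁ w₁ (fun _ => 0) (u - m) with hR
  have hdiff : |P - c * Q| ≤ ε * Q + C * R := by
    have hm0 : m ≤ 0 := min_le_right _ _
    have hmk : m ≤ k₀ := min_le_left _ _
    rw [hP, hQ, hR, ← Aj_zero, Aj_eq hf₁ hBn.2 (T := u - m) (by linarith),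
      Aj_eq hf₁ hth.2 (T := u - m) (by linarith),
      Aj_eq hf₁ (th_nice 0).2 (T := u - m) (by linarith), Finset.mul_sum, Finset.mul_sum,
      Finset.mul_sum, ← Finset.sum_sub_distrib, ← Finset.sum_add_distrib]
    refine (Finset.abs_sum_le_sum_abs _ _).trans (Finset.sum_le_sum fun x _ => ?_)
    have e1 : w₁ x * B (u - h₁ x) - c * (w₁ x * th (b₂ + 1) (u - h₁ x))
        = w₁ x * (B (u - h₁ x) - c * th (b₂ + 1) (u - h₁ x)) := by ring
    have e2 : u - m - h₁ x = u - h₁ x - m := by ring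
    rw [e1, abs_mul, abs_of_nonneg (hw₁ x), e2]
    have := mul_le_mul_of_nonneg_left (hC (u - h₁ x)) (hw₁ x)
    calc w₁ x * |B (u - h₁ x) - c * th (b₂ + 1) (u - h₁ x)| ≤ _ := this
      _ = _ := by ring
  have hd : |P / nu (b₁ + b₂ + 1) u - c * (Q / nu (b₁ + b₂ + 1) u)| ≤
      ε * (Q / nu (b₁ + b₂ + 1) u) + C * (R / nu (b₁ + b₂ + 1) u) := by
    have e1 : P / nu (b₁ + b₂ + 1) u - c * (Q / nu (b₁ + b₂ + 1) u)
        = (P - c * Q) / nu (b₁ + b₂ + 1) u := by ring
    have e2 : ε * (Q / nu (b₁ + b₂ + 1) u) + C * (R / nu (b₁ + b₂ + 1) u)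
        = (ε * Q + C * R) / nu (b₁ + b₂ + 1) u := by ring
    rw [e1, e2, abs_div, abs_of_pos hn]
    exact div_le_div_of_nonneg_right hdiff hn.le
  have hQ1 : Q / nu (b₁ + b₂ + 1) u ≤ L + 1 := by
    have := (abs_lt.1 g3).2
    linarith
  have hR1 : C * (R / nu (b₁ + b₂ + 1) u) < δ / 3 := lt_of_le_of_lt (le_abs_self _) g4
  have hεL : ε * (L + 1) = δ / 3 := by
    rw [hε]; field_simp
  have hεQ : ε * (Q / nu (b₁ + b₂ + 1) u) ≤ δ / 3 := by
    rw [← hεL]
    exact mul_le_mul_of_nonneg_left hQ1 hε0.le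
  calc |P / nu (b₁ + b₂ + 1) u - c * L|
      = |(P / nu (b₁ + b₂ + 1) u - c * (Q / nu (b₁ + b₂ + 1) u))
        + (c * (Q / nu (b₁ + b₂ + 1) u) - c * L)| := by congr 1; ring
    _ ≤ |P / nu (b₁ + b₂ + 1) u - c * (Q / nu (b₁ + b₂ + 1) u)|
        + |c * (Q / nu (b₁ + b₂ + 1) u) - c * L| := abs_add_le _ _
    _ < δ := by linarith

end Pool.Agent.X192.EQP
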